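import Mathlib

namespace Pool.Agent.X222.KS
open Finset

variable {M : Type*} [MetricSpace M] {k : ℕ}

/-- Histories of requests are lists whose head is the LATEST request. Cost of the moves of an
online algorithm, given as a function from histories to configurations `Fin k → M`. -/
noncomputable def cost (A : List M → Fin k → M) : List M → ℝ
  | [] => 0
  | r :: h => cost A h + ∑ i, dist (A h i) (A (r :: h) i)

/-- `A` is a deterministic online algorithm for the `k`-server problem started in `c0`: after every
request some server is at the request. -/
def Online (c0 : Fin k → M) (A : List M → Fin k → M) : Prop :=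
  A [] = c0 ∧ ∀ h r, ∃ i, A (r :: h) i = r

/-- `Offline c0 h c z`: the requests `h` can be served from `c0`, ending in `c`, with cost `z`. -/
inductive Offline (c0 : Fin k → M) : List M → (Fin k → M) → ℝ → Prop
  | nil : Offline c0 [] c0 0
  | cons (h : List M) (c : Fin k → M) (z : ℝ) (r : M) (c' : Fin k → M) : Offline c0 h c z →
      (∃ i, c' i = r) → Offline c0 (r :: h) c' (z + ∑ i, dist (c i) (c' i))

/-- optimal offline cost of the `k`-server problem -/
noncomputable def opt (c0 : Fin k → M) (h : List M) : ℝ := sInf {z | ∃ c, Offline c0 h c z}

/-- some online algorithm for the `k`-server problem is `C`-competitive -/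
def Competitive (c0 : Fin k → M) (C : NNReal) : Prop :=
  ∃ A : List M → Fin k → M, Online c0 A ∧ ∃ K : ℝ, ∀ h, cost A h ≤ C * opt c0 h + K

/-- Delayed problem. `ver = false` is version (a), `ver = true` is version (b). `F h` is the
frozen server after the history `h` (the server that served the latest request; the designated
server `f0` at the beginning). At a request `r` the server frozen so far does not move, the
request is served by the server `F (r :: h)`, and in version (b) this is a different server. -/
def OnlineD (ver : Bool) (c0 : Fin k → M) (f0 : Fin k) (B : List M → Fin k → M)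
    (F : List M → Fin k) : Prop :=
  B [] = c0 ∧ F [] = f0 ∧ ∀ h r, B (r :: h) (F (r :: h)) = r ∧ B (r :: h) (F h) = B h (F h) ∧
    (ver = true → F (r :: h) ≠ F h)

/-- Offline solutions of the delayed problem: `OfflineD ver c0 f0 h c f z` says that the requests
`h` can be served at cost `z`, ending in configuration `c` with frozen server `f`. -/
inductive OfflineD (ver : Bool) (c0 : Fin k → M) (f0 : Fin k) :
    List M → (Fin k → M) → Fin k → ℝ → Prop
  | nil : OfflineD ver c0 f0 [] c0 f0 0
  | cons (h : List M) (c : Fin k → M) (f : Fin k) (z : ℝ) (r : M) (c' : Fin k → M) (f' : Fin k) :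
      OfflineD ver c0 f0 h c f z → c' f' = r → c' f = c f → (ver = true → f' ≠ f) →
      OfflineD ver c0 f0 (r :: h) c' f' (z + ∑ i, dist (c i) (c' i))

/-- optimal offline cost of the delayed problem -/
noncomputable def optD (ver : Bool) (c0 : Fin k → M) (f0 : Fin k) (h : List M) : ℝ :=
  sInf {z | ∃ c f, OfflineD ver c0 f0 h c f z}

/-- some online algorithm for the delayed problem is `C`-competitive -/
def CompetitiveD (ver : Bool) (c0 : Fin k → M) (f0 : Fin k) (C : NNReal) : Prop :=
  ∃ (B : List M → Fin k → M) (F : List M → Fin k), OnlineD ver c0 f0 B F ∧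
    ∃ K : ℝ, ∀ h, cost B h ≤ C * optD ver c0 f0 h + K

/-- competitiveness of the `k`-server problem (`⊤` if there is no `C`) -/
noncomputable def comp (c0 : Fin k → M) : ENNReal :=
  ⨅ (C : NNReal) (_ : Competitive c0 C), (C : ENNReal)

/-- competitiveness of the delayed problem, version (a) for `false` and (b) for `true` -/
noncomputable def compD (ver : Bool) (c0 : Fin k → M) (f0 : Fin k) : ENNReal :=
  ⨅ (C : NNReal) (_ : CompetitiveD ver c0 f0 C), (C : ENNReal)

end Pool.Agent.X222.KS
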