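import Mathlib
import Pool.Agent.X222.KS.Defs

namespace Pool.Agent.X222.KS
open Finset

variable {M : Type*} [MetricSpace M] {k : ℕ}

lemma Offline.nonneg {c0 : Fin k → M} {h : List M} {c : Fin k → M} {z : ℝ}
    (H : Offline c0 h c z) : 0 ≤ z := by
  induction H with
  | nil => exact le_rfl
  | cons h c z r c' _ _ ih => exact add_nonneg ih (sum_nonneg fun _ _ => dist_nonneg)

lemma OfflineD.nonneg {ver : Bool} {c0 : Fin k → M} {f0 : Fin k} {h : List M} {c : Fin k → M}
    {f : Fin k} {z : ℝ} (H : OfflineD ver c0 f0 h c f z) : 0 ≤ z := by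
  induction H with
  | nil => exact le_rfl
  | cons h c f z r c' f' _ _ _ _ ih => exact add_nonneg ih (sum_nonneg fun _ _ => dist_nonneg)

lemma opt_le {c0 : Fin k → M} {h : List M} {c : Fin k → M} {z : ℝ} (H : Offline c0 h c z) :
    opt c0 h ≤ z :=
  csInf_le ⟨0, by rintro x ⟨c, hc⟩; exact hc.nonneg⟩ ⟨c, H⟩

lemma online_offline {c0 : Fin k → M} {A : List M → Fin k → M} (hA : Online c0 A) (h : List M) :
    Offline c0 h (A h) (cost A h) := by
  induction h with
  | nil => rw [hA.1]; exact Offline.nil
  | cons r h ih => exact Offline.cons h _ _ r _ ih (hA.2 h r)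

lemma onlineD_offlineD {ver : Bool} {c0 : Fin k → M} {f0 : Fin k} {B : List M → Fin k → M}
    {F : List M → Fin k} (hB : OnlineD ver c0 f0 B F) (h : List M) :
    OfflineD ver c0 f0 h (B h) (F h) (cost B h) := by
  induction h with
  | nil => rw [hB.1, hB.2.1]; exact OfflineD.nil
  | cons r h ih =>
    exact OfflineD.cons h _ _ _ r _ _ ih (hB.2.2 h r).1 (hB.2.2 h r).2.1 (hB.2.2 h r).2.2

/-- lazy version of an online algorithm -/
lemma lazy {c0 : Fin k → M} {A : List M → Fin k → M} (hA : Online c0 A) :
    ∃ A' : List M → Fin k → M, A' [] = c0 ∧ (∀ h r, ∃ i, A' (r :: h) = Function.update (A' h) i r) ∧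
      ∀ h, cost A' h ≤ cost A h := by
  choose s hs using hA.2
  let A' : List M → Fin k → M := fun h => List.rec (motive := fun _ => Fin k → M) c0
    (fun r h p => Function.update p (s h r) r) h
  have h0 : A' [] = c0 := rfl
  have h1 : ∀ h r, A' (r :: h) = Function.update (A' h) (s h r) r := fun _ _ => rfl
  refine ⟨A', h0, fun h r => ⟨_, h1 h r⟩, ?_⟩
  have key : ∀ h, cost A' h + ∑ i, dist (A' h i) (A h i) ≤ cost A h := by
    intro h
    induction h with
    | nil => simp [cost, h0, hA.1]
    | cons r h ih =>
      have e1 : cost A' (r :: h) = cost A' h + ∑ i, dist (A' h i) (A' (r :: h) i) := rfl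
      have e2 : cost A (r :: h) = cost A h + ∑ i, dist (A h i) (A (r :: h) i) := rfl
      have e3 : ∀ i, dist (A' h i) (A' (r :: h) i) + dist (A' (r :: h) i) (A (r :: h) i) ≤
          dist (A' h i) (A h i) + dist (A h i) (A (r :: h) i) := by
        intro i
        rw [h1]
        by_cases hi : i = s h r
        · subst hi
          rw [Function.update_self, hs h r, dist_self, add_zero]
          exact dist_triangle _ _ _
        · rw [Function.update_of_ne hi, dist_self, zero_add]
          exact dist_triangle _ _ _
      have e4 := sum_le_sum (fun i (_ : i ∈ (univ : Finset (Fin k))) => e3 i)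
      rw [sum_add_distrib, sum_add_distrib] at e4
      rw [e1, e2]; linarith
  intro h
  have := key h
  have h3 : 0 ≤ ∑ i, dist (A' h i) (A h i) := sum_nonneg fun _ _ => dist_nonneg
  linarith

/-- alternating requests `x, y, x, y, …` on top of the history `h` -/
def alt (h : List M) (x y : M) : ℕ → List M
  | 0 => x :: h
  | n + 1 => (if Even n then y else x) :: alt h x y n

/-- a configuration covering both points serves the block, moving only once -/
lemma alt_offline {c0 : Fin k → M} {h : List M} {c : Fin k → M} {z : ℝ} (H : Offline c0 h c z)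
    (x y : M) (c' : Fin k → M) (hx : ∃ i, c' i = x) (hy : ∃ i, c' i = y) (n : ℕ) :
    Offline c0 (alt h x y n) c' (z + ∑ i, dist (c i) (c' i)) := by
  induction n with
  | zero => exact Offline.cons h c z x c' H hx
  | succ n ih =>
    have := Offline.cons (alt h x y n) c' _ (if Even n then y else x) c' ih
      (by split_ifs; exacts [hy, hx])
    have h5 : (z + ∑ i, dist (c i) (c' i)) + ∑ i, dist (c' i) (c' i) = z + ∑ i, dist (c i) (c' i) := by
      simp
    rw [h5] at this
    exact this

/-- forcing lemma -/
lemma force {c0 : Fin k → M} (hk : 2 ≤ k) {A : List M → Fin k → M} (h0 : A [] = c0)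
    (hl : ∀ h r, ∃ i, A (r :: h) = Function.update (A h) i r) {C : NNReal} {K : ℝ}
    (hC : ∀ h, cost A h ≤ C * opt c0 h + K) (h : List M) (x y : M) (hxy : x ≠ y) :
    ∃ n, (∃ i, A (alt h x y n) i = x) ∧ ∃ i, A (alt h x y n) i = y := by
  by_contra hcon
  push Not at hcon
  have hon : Online c0 A := ⟨h0, fun h r => by
    obtain ⟨i, hi⟩ := hl h r
    exact ⟨i, by rw [hi, Function.update_self]⟩⟩
  -- each step costs at least `dist x y`
  have hcov : ∀ n, ∃ i, A (alt h x y n) i = (if Even n then x else y) := by
    intro n
    cases n with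
    | zero => simpa [alt] using hon.2 h x
    | succ n =>
      have := hon.2 (alt h x y n) (if Even n then y else x)
      by_cases hn : Even n
      · have hn' : ¬ Even (n+1) := by rw [Nat.even_add_one]; simpa using hn
        rw [if_neg hn']
        rw [if_pos hn] at this
        simpa [alt, hn] using this
      · have hn' : Even (n+1) := by rw [Nat.even_add_one]; exact hn
        rw [if_pos hn']
        rw [if_neg hn] at this
        simpa [alt, hn] using this
  have hstep : ∀ n, cost A (alt h x y n) + dist x y ≤ cost A (alt h x y (n+1)) := by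
    intro n
    have e1 : cost A (alt h x y (n+1)) = cost A (alt h x y n) +
      ∑ i, dist (A (alt h x y n) i) (A (alt h x y (n+1)) i) := rfl
    rw [e1]
    have hge : dist x y ≤ ∑ i, dist (A (alt h x y n) i) (A (alt h x y (n+1)) i) := by
      obtain ⟨j, hj⟩ := hcov n
      obtain ⟨j', hj'⟩ := hcov (n+1)
      -- the server at the old point has moved
      obtain ⟨i, hi⟩ := hl (alt h x y n) (if Even n then y else x)
      have hi' : A (alt h x y (n+1)) = Function.update (A (alt h x y n)) i
        (if Even n then y else x) := hi
      have hji : j = i := by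
        by_contra hne
        have e2 : A (alt h x y (n+1)) j = if Even n then x else y := by
          rw [hi', Function.update_of_ne hne, hj]
        have e3 : A (alt h x y (n+1)) i = if Even n then y else x := by
          rw [hi', Function.update_self]
        by_cases hn : Even n
        · rw [if_pos hn] at e2 e3
          exact hcon (n+1) ⟨j, e2⟩ i e3
        · rw [if_neg hn] at e2 e3
          exact hcon (n+1) ⟨i, e3⟩ j e2
      have e4 : dist (A (alt h x y n) j) (A (alt h x y (n+1)) j) = dist x y := by
        rw [hj, hi', hji, Function.update_self]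
        by_cases hn : Even n
        · rw [if_pos hn, if_pos hn]
        · rw [if_neg hn, if_neg hn, dist_comm]
      rw [← e4]
      exact single_le_sum (f := fun i => dist (A (alt h x y n) i) (A (alt h x y (n+1)) i))
        (fun _ _ => dist_nonneg) (mem_univ j)
    linarith
  have hlow : ∀ n : ℕ, n * dist x y ≤ cost A (alt h x y n) := by
    intro n
    induction n with
    | zero =>
      have := (online_offline hon (alt h x y 0)).nonneg
      simpa using this
    | succ n ih =>
      have := hstep n
      push_cast
      linarith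
  let c' : Fin k → M := Function.update (Function.update (A h) ⟨0, by omega⟩ x) ⟨1, by omega⟩ y
  have hx : ∃ i, c' i = x := ⟨⟨0, by omega⟩, by
    simp only [c']
    rw [Function.update_of_ne (by simp), Function.update_self]⟩
  have hy : ∃ i, c' i = y := ⟨⟨1, by omega⟩, by simp only [c']; rw [Function.update_self]⟩
  have hup : ∀ n, opt c0 (alt h x y n) ≤ cost A h + ∑ i, dist (A h i) (c' i) := fun n =>
    opt_le (alt_offline (online_offline hon h) x y c' hx hy n)
  obtain ⟨n, hn⟩ := exists_nat_gt ((C * (cost A h + ∑ i, dist (A h i) (c' i)) + K) / dist x y)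
  rw [div_lt_iff₀ (dist_pos.2 hxy)] at hn
  have h1 := hlow n
  have h2 := hC (alt h x y n)
  have h3 := mul_le_mul_of_nonneg_left (hup n) C.coe_nonneg
  linarith

end Pool.Agent.X222.KS
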