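import Mathlib
import Pool.Agent.X222.KS.Force

namespace Pool.Agent.X222.KS
open Finset

variable {M : Type*} [MetricSpace M] {k : ℕ}

lemma alt_cost (A : List M → Fin k → M) (h : List M) (x y : M) (n : ℕ) :
    cost A h + ∑ i, dist (A h i) (A (alt h x y n) i) ≤ cost A (alt h x y n) := by
  induction n with
  | zero => exact le_rfl
  | succ n ih =>
    have e1 : cost A (alt h x y (n+1)) = cost A (alt h x y n) +
      ∑ i, dist (A (alt h x y n) i) (A (alt h x y (n+1)) i) := rfl
    have e2 : ∑ i, dist (A h i) (A (alt h x y (n+1)) i) ≤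
        ∑ i, dist (A h i) (A (alt h x y n) i) +
          ∑ i, dist (A (alt h x y n) i) (A (alt h x y (n+1)) i) := by
      rw [← sum_add_distrib]
      exact sum_le_sum fun i _ => dist_triangle _ _ _
    linarith

lemma sum_update (a : Fin k → M) (j : Fin k) (x : M) :
    ∑ i, dist (a i) (Function.update a j x i) = dist (a j) x := by
  rw [Finset.sum_eq_single j]
  · rw [Function.update_self]
  · intro b _ hb; rw [Function.update_of_ne hb, dist_self]
  · intro h; exact absurd (mem_univ j) h

lemma swap_bound (a a' : Fin k → M) (i j j' : Fin k) (x r : M) (hi : a' i = x) :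
    ∑ m, dist (Function.update a j x m) (Function.update a' j' r (Equiv.swap i j m)) ≤
      ∑ m, dist (a m) (a' m) + dist (a j) x + dist (a' j') r := by
  have h1 : ∀ m, dist (Function.update a j x m) (Function.update a' j' r (Equiv.swap i j m)) ≤
      (dist (a m) (a' m) + (if m = i then dist (a j) x + dist (a j) (a' j) else 0)
        - (if m = j then dist (a j) (a' j) else 0)) +
      dist (a' (Equiv.swap i j m)) (Function.update a' j' r (Equiv.swap i j m)) := by
    intro m
    have h2 : dist (Function.update a j x m) (a' (Equiv.swap i j m)) ≤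
        dist (a m) (a' m) + (if m = i then dist (a j) x + dist (a j) (a' j) else 0)
        - (if m = j then dist (a j) (a' j) else 0) := by
      by_cases hmj : m = j
      · subst hmj
        rw [Function.update_self, Equiv.swap_apply_right, hi, dist_self, if_pos rfl]
        have : 0 ≤ (if m = i then dist (a m) x + dist (a m) (a' m) else 0) := by
          split_ifs
          · positivity
          · exact le_rfl
        linarith
      · rw [Function.update_of_ne hmj, if_neg hmj, sub_zero]
        by_cases hmi : m = i
        · subst hmi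
          rw [if_pos rfl, Equiv.swap_apply_left]
          have e1 := dist_triangle4 (a m) (a' m) (a j) (a' j)
          rw [hi] at e1 ⊢
          rw [dist_comm x (a j)] at e1
          linarith
        · rw [if_neg hmi, Equiv.swap_apply_of_ne_of_ne hmi hmj, add_zero]
    have h3 := dist_triangle (Function.update a j x m) (a' (Equiv.swap i j m))
      (Function.update a' j' r (Equiv.swap i j m))
    linarith
  refine (sum_le_sum fun m _ => h1 m).trans ?_
  rw [sum_add_distrib, sum_sub_distrib, sum_add_distrib, Finset.sum_ite_eq', Finset.sum_ite_eq',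
    if_pos (mem_univ _), if_pos (mem_univ _)]
  have h4 : ∑ m, dist (a' (Equiv.swap i j m)) (Function.update a' j' r (Equiv.swap i j m)) =
      dist (a' j') r := by
    rw [← sum_update a' j' r]
    exact Equiv.sum_comp (Equiv.swap i j) (fun l => dist (a' l) (Function.update a' j' r l))
  rw [h4]
  linarith

/-- state of the simulation -/
structure St (M : Type*) (k : ℕ) where
  h : List M
  p : Equiv.Perm (Fin k)
  j : Fin k
  x : M

/-- configuration of the simulating algorithm -/
def conf (A : List M → Fin k → M) (s : St M k) : Fin k → M :=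
  fun l => Function.update (A s.h) s.j s.x (s.p.symm l)

/-- frozen server of the simulating algorithm -/
def fro (s : St M k) : Fin k := s.p s.j

omit [MetricSpace M] in
lemma conf_fro (A : List M → Fin k → M) (s : St M k) : conf A s (fro s) = s.x := by
  unfold conf fro
  rw [Equiv.symm_apply_apply, Function.update_self]

lemma step {c0 : Fin k → M} (hk : 2 ≤ k) {A : List M → Fin k → M} (h0 : A [] = c0)
    (hl : ∀ h r, ∃ i, A (r :: h) = Function.update (A h) i r) {C : NNReal} {K : ℝ}
    (hC : ∀ h, cost A h ≤ C * opt c0 h + K) (ver : Bool)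
    (hM : ver = true → ∀ x : M, ∀ ε : ℝ, 0 < ε → ∃ x', x' ≠ x ∧ dist x' x ≤ ε)
    (s : St M k) (r : M) (ε : ℝ) (hε : 0 < ε) :
    ∃ s' : St M k, s'.x = r ∧ conf A s' (fro s) = s.x ∧ (ver = true → fro s' ≠ fro s) ∧
      ∑ i, dist (conf A s i) (conf A s' i) + dist (A s'.h s'.j) r + cost A s.h ≤
        cost A s'.h + dist (A s.h s.j) s.x + 2 * ε ∧
      ∀ (c : Fin k → M) (f : Fin k) (c' : Fin k → M) (f' : Fin k) (cc : Fin k → M) (z : ℝ),
        c f = s.x → c' f' = r → c' f = c f → (ver = true → f' ≠ f) → Offline c0 s.h cc z →
        ∃ cc' z', Offline c0 s'.h cc' z' ∧ z' + ∑ i, dist (cc' i) (c' i) ≤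
          z + ∑ i, dist (cc i) (c i) + ∑ i, dist (c i) (c' i) + 2 * ε := by
  by_cases hemp : ver = false ∧ r = s.x
  · obtain ⟨hv, hr⟩ := hemp
    refine ⟨s, hr.symm, conf_fro A s, by simp [hv], ?_, ?_⟩
    · simp only [dist_self, sum_const_zero, zero_add]
      rw [hr]; linarith
    · intro c f c' f' cc z hcf hc'f' hc'f hvf hoff
      refine ⟨cc, z, hoff, ?_⟩
      have : ∑ i, dist (cc i) (c' i) ≤ ∑ i, dist (cc i) (c i) + ∑ i, dist (c i) (c' i) := by
        rw [← sum_add_distrib]
        exact sum_le_sum fun i _ => dist_triangle _ _ _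
      linarith
  · obtain ⟨y, hyx, hyr⟩ : ∃ y, y ≠ s.x ∧ dist y r ≤ ε := by
      by_cases hr : r = s.x
      · have hv : ver = true := by
          cases hver : ver with
          | false => exact absurd ⟨hver, hr⟩ hemp
          | true => rfl
        rw [hr]; exact hM hv s.x ε hε
      · exact ⟨r, hr, by rw [dist_self]; exact hε.le⟩
    obtain ⟨n, ⟨i, hi⟩, ⟨j', hj'⟩⟩ := force hk h0 hl hC s.h s.x y hyx.symm
    have hij : i ≠ j' := by
      rintro rfl
      exact hyx (hj'.symm.trans hi)
    have hcost := alt_cost A s.h s.x y n
    let s' : St M k := ⟨alt s.h s.x y n, s.p * Equiv.swap i s.j, j', r⟩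
    have hsym : ∀ m, (s.p * Equiv.swap i s.j).symm (s.p m) = Equiv.swap i s.j m := by
      intro m
      rw [Equiv.symm_apply_eq]
      simp
    refine ⟨s', rfl, ?_, ?_, ?_, ?_⟩
    · change Function.update (A (alt s.h s.x y n)) j' r ((s.p * Equiv.swap i s.j).symm (s.p s.j)) = _
      rw [hsym, Equiv.swap_apply_right, Function.update_of_ne hij, hi]
    · intro _ heq
      change (s.p * Equiv.swap i s.j) j' = s.p s.j at heq
      rw [Equiv.Perm.mul_apply] at heq
      have h1 := s.p.injective heq
      have h2 := congrArg (Equiv.swap i s.j) h1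
      rw [Equiv.swap_apply_self] at h2
      rw [Equiv.swap_apply_right] at h2
      exact hij h2.symm
    · have hsum : ∑ l, dist (conf A s l) (conf A s' l) =
          ∑ m, dist (Function.update (A s.h) s.j s.x m)
            (Function.update (A (alt s.h s.x y n)) j' r (Equiv.swap i s.j m)) := by
        rw [← Equiv.sum_comp s.p]
        refine sum_congr rfl fun m _ => ?_
        change dist (Function.update (A s.h) s.j s.x (s.p.symm (s.p m)))
          (Function.update (A (alt s.h s.x y n)) j' r ((s.p * Equiv.swap i s.j).symm (s.p m))) = _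
        rw [hsym, Equiv.symm_apply_apply]
      have hb := swap_bound (A s.h) (A (alt s.h s.x y n)) i s.j j' s.x r hi
      rw [hsum]
      change _ + dist (A (alt s.h s.x y n) j') r + _ ≤ cost A (alt s.h s.x y n) + _ + _
      rw [hj'] at hb ⊢
      linarith
    · intro c f c' f' cc z hcf hc'f' hc'f hvf hoff
      have hff : f ≠ f' := by
        rintro rfl
        have hr : r = s.x := by rw [← hc'f', hc'f, hcf]
        have hv : ver = true := by
          cases hver : ver with
          | false => exact absurd ⟨hver, hr⟩ hemp
          | true => rfl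
        exact hvf hv rfl
      let cc' : Fin k → M := Function.update c' f' y
      have hx : ∃ i, cc' i = s.x := ⟨f, by
        simp only [cc']
        rw [Function.update_of_ne hff, hc'f, hcf]⟩
      have hy : ∃ i, cc' i = y := ⟨f', by simp only [cc']; rw [Function.update_self]⟩
      refine ⟨cc', _, alt_offline hoff s.x y cc' hx hy n, ?_⟩
      have e1 : ∑ i, dist (c' i) (cc' i) = dist r y := by
        have := sum_update c' f' y
        rw [hc'f'] at this
        exact this
      have e2 : ∑ i, dist (cc' i) (c' i) = dist r y := by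
        rw [← e1]
        exact sum_congr rfl fun i _ => dist_comm _ _
      have e3 : ∑ i, dist (cc i) (cc' i) ≤
          ∑ i, dist (cc i) (c i) + ∑ i, dist (c i) (c' i) + ∑ i, dist (c' i) (cc' i) := by
        rw [← sum_add_distrib, ← sum_add_distrib]
        exact sum_le_sum fun i _ => dist_triangle4 _ _ _ _
      rw [dist_comm] at hyr
      linarith

end Pool.Agent.X222.KS
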