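import Mathlib
import Pool.Agent.X222.KS.Step

namespace Pool.Agent.X222.KS
open Finset

variable {M : Type*} [MetricSpace M] {k : ℕ}

lemma inf_bound {S : Set ℝ} (hS : S.Nonempty) {C : NNReal} {v K : ℝ}
    (h : ∀ z ∈ S, v ≤ C * z + K) : v ≤ C * sInf S + K := by
  rcases eq_or_lt_of_le (zero_le (a := C)) with hC | hC
  · obtain ⟨z, hz⟩ := hS
    have := h z hz
    rw [← hC] at this ⊢
    simpa using this
  · have hC' : (0:ℝ) < C := hC
    have h1 : (v - K) / C ≤ sInf S := by
      refine le_csInf hS fun z hz => ?_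
      rw [div_le_iff₀ hC']
      have := h z hz
      linarith
    rw [div_le_iff₀ hC'] at h1
    linarith

lemma geo (n : ℕ) : ∑ t ∈ range n, ((1:ℝ)/2)^t ≤ 2 := by
  have : ∀ n, ∑ t ∈ range n, ((1:ℝ)/2)^t = 2 - 2 * (1/2)^n := by
    intro n
    induction n with
    | zero => simp
    | succ n ih => rw [sum_range_succ, ih, pow_succ]; ring
  rw [this]
  have : (0:ℝ) < (1/2)^n := by positivity
  linarith

theorem main (ver : Bool) (hk : 2 ≤ k) (c0 : Fin k → M) (f0 : Fin k)
    (hM : ver = true → ∀ x : M, ∀ ε : ℝ, 0 < ε → ∃ x', x' ≠ x ∧ dist x' x ≤ ε)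
    (C : NNReal) (hcomp : Competitive c0 C) : CompetitiveD ver c0 f0 C := by
  obtain ⟨A0, hA0, K, hK⟩ := hcomp
  obtain ⟨A, h0, hl, hA⟩ := lazy hA0
  have hC : ∀ h, cost A h ≤ C * opt c0 h + K := fun h => (hA h).trans (hK h)
  have hstep := fun (s : St M k) (r : M) (n : ℕ) =>
    step hk h0 hl hC ver hM s r ((1/2)^n) (by positivity)
  choose nxt n1 n2 n3 n4 n5 using hstep
  let s0 : St M k := ⟨[], 1, f0, c0 f0⟩
  let g : List M → St M k := fun l => List.rec (motive := fun _ => St M k) s0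
    (fun r h s => nxt s r h.length) l
  have g0 : g [] = s0 := rfl
  have g1 : ∀ r h, g (r :: h) = nxt (g h) r h.length := fun _ _ => rfl
  have hBD : OnlineD ver c0 f0 (fun h => conf A (g h)) (fun h => fro (g h)) := by
    refine ⟨?_, rfl, fun h r => ⟨?_, ?_, ?_⟩⟩
    · funext l
      change Function.update (A []) f0 (c0 f0) l = c0 l
      rw [h0, Function.update_eq_self]
    · change conf A (g (r :: h)) (fro (g (r :: h))) = r
      rw [conf_fro, g1, n1]
    · change conf A (g (r :: h)) (fro (g h)) = conf A (g h) (fro (g h))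
      rw [conf_fro, g1, n2]
    · intro hv
      change fro (g (r :: h)) ≠ fro (g h)
      rw [g1]
      exact n3 _ _ _ hv
  refine ⟨_, _, hBD, C * 4 + K + 4, fun h => ?_⟩
  -- cost of the simulation
  have hcost : ∀ h, cost (fun h => conf A (g h)) h + dist (A (g h).h (g h).j) (g h).x ≤
      cost A (g h).h + 2 * ∑ t ∈ range h.length, ((1:ℝ)/2)^t := by
    intro h
    induction h with
    | nil =>
      change (0:ℝ) + dist (A [] f0) (c0 f0) ≤ 0 + 2 * ∑ t ∈ range 0, ((1:ℝ)/2)^t
      rw [h0]; simp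
    | cons r h ih =>
      have e1 : cost (fun h => conf A (g h)) (r :: h) = cost (fun h => conf A (g h)) h +
        ∑ i, dist (conf A (g h) i) (conf A (g (r :: h)) i) := rfl
      have e2 := n4 (g h) r h.length
      have e3 : (g (r :: h)).x = r := by rw [g1, n1]
      rw [e1, e3, List.length_cons, sum_range_succ, g1]
      linarith
  -- offline solutions
  have hoff : ∀ h c f z, OfflineD ver c0 f0 h c f z → c f = (g h).x ∧
      ∃ cc z', Offline c0 (g h).h cc z' ∧
        z' + ∑ i, dist (cc i) (c i) ≤ z + 2 * ∑ t ∈ range h.length, ((1:ℝ)/2)^t := by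
    intro h c f z H
    induction H with
    | nil =>
      refine ⟨rfl, c0, 0, Offline.nil, ?_⟩
      simp
    | cons h c f z r c' f' H1 hr hf hv ih =>
      obtain ⟨ih1, cc, z', ih2, ih3⟩ := ih
      refine ⟨by rw [g1, n1]; exact hr, ?_⟩
      obtain ⟨cc', z'', h3, h4⟩ := n5 (g h) r h.length c f c' f' cc z' ih1 hr hf hv ih2
      refine ⟨cc', z'', by rw [g1]; exact h3, ?_⟩
      rw [List.length_cons, sum_range_succ]
      linarith
  have hne : {z | ∃ c f, OfflineD ver c0 f0 h c f z}.Nonempty :=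
    ⟨_, _, _, onlineD_offlineD hBD h⟩
  refine inf_bound hne ?_
  rintro z ⟨c, f, H⟩
  obtain ⟨-, cc, z', h1, h2⟩ := hoff h c f z H
  have h3 := hcost h
  have h4 := hC (g h).h
  have h5 := opt_le h1
  have h6 := geo h.length
  have h7 : (0:ℝ) ≤ ∑ i, dist (cc i) (c i) := sum_nonneg fun _ _ => dist_nonneg
  have h8 : (0:ℝ) ≤ dist (A (g h).h (g h).j) (g h).x := dist_nonneg
  have h9 : opt c0 (g h).h ≤ z + 4 := by linarith
  have h10 := mul_le_mul_of_nonneg_left h9 C.coe_nonneg
  linarith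

theorem comp_le (ver : Bool) (hk : 2 ≤ k) (c0 : Fin k → M) (f0 : Fin k)
    (hM : ver = true → ∀ x : M, ∀ ε : ℝ, 0 < ε → ∃ x', x' ≠ x ∧ dist x' x ≤ ε) :
    compD ver c0 f0 ≤ comp c0 :=
  le_iInf₂ fun C hC => iInf₂_le C (main ver hk c0 f0 hM C hC)

end Pool.Agent.X222.KS
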