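import Mathlib
import Pool.Agent.X222.KS.Main

namespace Pool.Agent.X222.KS
open Finset

/-- the space of three points at mutual distance 1 -/
inductive Tri
  | a | b | c
  deriving DecidableEq

instance : Fintype Tri := ⟨{Tri.a, Tri.b, Tri.c}, by intro x; cases x <;> simp⟩

noncomputable instance : MetricSpace Tri where
  dist x y := if x = y then 0 else 1
  dist_self x := by simp
  dist_comm x y := by simp only [eq_comm]
  dist_triangle x y z := by
    by_cases h1 : x = y
    · subst h1; simp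
    · by_cases h2 : y = z
      · subst h2; simp
      · rw [if_neg h1, if_neg h2]; split_ifs <;> norm_num
  eq_of_dist_eq_zero := by
    intro x y h
    by_contra hne
    change (if x = y then (0:ℝ) else 1) = 0 at h
    rw [if_neg hne] at h
    norm_num at h

lemma dist_tri (x y : Tri) : dist x y = if x = y then 0 else 1 := rfl

/-- three servers at the three points -/
def d3 : Fin 3 → Tri := ![Tri.a, Tri.b, Tri.c]

lemma d3_surj (r : Tri) : ∃ i, d3 i = r := by
  cases r
  · exact ⟨0, rfl⟩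
  · exact ⟨1, rfl⟩
  · exact ⟨2, rfl⟩

lemma comp_tri (c0 : Fin 3 → Tri) : comp c0 = 0 := by
  refine le_antisymm ?_ bot_le
  refine (iInf₂_le (0 : NNReal) ?_).trans (by simp)
  let A : List Tri → Fin 3 → Tri := fun h => List.rec (motive := fun _ => Fin 3 → Tri) c0
    (fun _ _ _ => d3) h
  refine ⟨A, ⟨rfl, fun _ r => d3_surj r⟩, ∑ i, dist (c0 i) (d3 i), fun h => ?_⟩
  have hc : ∀ (h : List Tri) (r : Tri), cost A (r :: h) = ∑ i, dist (c0 i) (d3 i) := by
    intro h
    induction h with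
    | nil =>
      intro r
      change 0 + ∑ i, dist (c0 i) (d3 i) = _
      rw [zero_add]
    | cons r' h ih =>
      intro r
      change cost A (r' :: h) + ∑ i, dist (d3 i) (d3 i) = _
      rw [ih]; simp
  cases h with
  | nil =>
    change (0:ℝ) ≤ _
    simp only [NNReal.coe_zero, zero_mul, zero_add]
    exact sum_nonneg fun _ _ => dist_nonneg
  | cons r h => rw [hc]; simp

lemma third (i j : Fin 3) : ∃ u : Fin 3, ∀ l, l ≠ i → l ≠ j → i ≠ j → l = u := by
  revert i j; decide

lemma avoid (z w : Tri) : ∃ z', z' ≠ z ∧ z' ≠ w := by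
  revert z w; decide

lemma exh (z p q x : Tri) (h1 : z ≠ p) (h2 : z ≠ q) (h3 : p ≠ q) : x = z ∨ x = p ∨ x = q := by
  revert z p q x; decide

lemma others (z : Tri) : ∃ p q, z ≠ p ∧ z ≠ q ∧ p ≠ q := by
  revert z; decide

lemma two_more (f : Fin 3) : ∃ s t : Fin 3, f ≠ s ∧ f ≠ t ∧ s ≠ t := by
  revert f; decide

lemma all3 (f s t i : Fin 3) (h1 : f ≠ s) (h2 : f ≠ t) (h3 : s ≠ t) : i = f ∨ i = s ∨ i = t := by
  revert f s t i; decide

variable {c3 : Fin 3 → Tri}

/-- offline state: two servers (one of them frozen) at `z`, the third at `p` -/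
def Good (c3 : Fin 3 → Tri) (f0 : Fin 3) (h : List Tri) (z p : Tri) (w : ℝ) : Prop :=
  ∃ c f s t, f ≠ s ∧ f ≠ t ∧ s ≠ t ∧ c f = z ∧ c s = z ∧ c t = p ∧ OfflineD true c3 f0 h c f w

lemma sum_upd (c : Fin 3 → Tri) (j : Fin 3) (x : Tri) :
    ∑ i, dist (c i) (Function.update c j x i) = dist (c j) x := by
  rw [Finset.sum_eq_single j]
  · rw [Function.update_self]
  · intro b _ hb; rw [Function.update_of_ne hb, dist_self]
  · intro h; exact absurd (mem_univ j) h

lemma T1 {f0 : Fin 3} {h : List Tri} {z p : Tri} {w : ℝ} (hz : z ≠ p) (H : Good c3 f0 h z p w) :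
    Good c3 f0 (p :: p :: h) p z (w + 1) := by
  obtain ⟨c, f, s, t, h1, h2, h3, e1, e2, e3, H⟩ := H
  have H1 := OfflineD.cons h c f w p c t H e3 rfl (fun _ => h2.symm)
  have H2 := OfflineD.cons (p :: h) c t _ p (Function.update c f p) f H1
    (Function.update_self _ _ _) (Function.update_of_ne h2.symm _ _) (fun _ => h2)
  have e : w + ∑ i, dist (c i) (c i) + ∑ i, dist (c i) (Function.update c f p i) = w + 1 := by
    rw [sum_upd, e1, dist_tri, if_neg hz]; simp
  rw [e] at H2
  exact ⟨_, f, t, s, h2, h1, h3.symm, Function.update_self _ _ _,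
    by rw [Function.update_of_ne h2.symm]; exact e3,
    by rw [Function.update_of_ne h1.symm]; exact e2, H2⟩

lemma T2 {f0 : Fin 3} {h : List Tri} {z p q : Tri} {w : ℝ} (hz : z ≠ p) (H : Good c3 f0 h z q w) :
    Good c3 f0 (p :: p :: h) p q (w + 2) := by
  obtain ⟨c, f, s, t, h1, h2, h3, e1, e2, e3, H⟩ := H
  have H1 := OfflineD.cons h c f w p (Function.update c s p) s H
    (Function.update_self _ _ _) (Function.update_of_ne h1 _ _) (fun _ => h1.symm)
  have H2 := OfflineD.cons (p :: h) (Function.update c s p) s _ p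
    (Function.update (Function.update c s p) f p) f H1
    (Function.update_self _ _ _) (Function.update_of_ne h1.symm _ _) (fun _ => h1)
  have e : w + ∑ i, dist (c i) (Function.update c s p i) + ∑ i, dist (Function.update c s p i)
      (Function.update (Function.update c s p) f p i) = w + 2 := by
    rw [sum_upd, sum_upd, Function.update_of_ne h1, e1, e2, dist_tri, if_neg hz]; ring
  rw [e] at H2
  refine ⟨_, f, s, t, h1, h2, h3, Function.update_self _ _ _, ?_, ?_, H2⟩
  · rw [Function.update_of_ne h1.symm, Function.update_self]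
  · rw [Function.update_of_ne h2.symm, Function.update_of_ne h3.symm]; exact e3

lemma base (c3 : Fin 3 → Tri) (f0 : Fin 3) (p : Tri) : ∃ w, Good c3 f0 [c3 f0, c3 f0] (c3 f0) p w := by
  obtain ⟨s, t, h1, h2, h3⟩ := two_more f0
  have H1 := OfflineD.cons (ver := true) [] c3 f0 0 (c3 f0)
    (Function.update (Function.update c3 s (c3 f0)) t p) s OfflineD.nil
    (by rw [Function.update_of_ne h3, Function.update_self])
    (by rw [Function.update_of_ne h2, Function.update_of_ne h1]) (fun _ => h1.symm)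
  have H2 := OfflineD.cons [c3 f0] _ s _ (c3 f0)
    (Function.update (Function.update c3 s (c3 f0)) t p) f0 H1
    (by rw [Function.update_of_ne h2, Function.update_of_ne h1]) rfl (fun _ => h1)
  exact ⟨_, _, f0, s, t, h1, h2, h3, by rw [Function.update_of_ne h2, Function.update_of_ne h1],
    by rw [Function.update_of_ne h3, Function.update_self], Function.update_self _ _ _, H2⟩

lemma round {f0 : Fin 3} {B : List Tri → Fin 3 → Tri} {F : List Tri → Fin 3}
    (hB : OnlineD true c3 f0 B F) (h : List Tri) (z : Tri) :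
    ∃ i j, i ≠ j ∧ B (z :: z :: h) i = z ∧ B (z :: z :: h) j = z := by
  refine ⟨F (z :: z :: h), F (z :: h), (hB.2.2 (z :: h) z).2.2 rfl, (hB.2.2 (z :: h) z).1, ?_⟩
  rw [(hB.2.2 (z :: h) z).2.1, (hB.2.2 h z).1]

lemma adv {f0 : Fin 3} {B : List Tri → Fin 3 → Tri} {F : List Tri → Fin 3}
    (hB : OnlineD true c3 f0 B F) : ∃ K0 : ℝ, ∀ n : ℕ, ∃ h z p q w1 w2, z ≠ p ∧ z ≠ q ∧ p ≠ q ∧
      (∃ i j, i ≠ j ∧ B h i = z ∧ B h j = z) ∧ 2 * (n : ℝ) ≤ cost B h ∧
      Good c3 f0 h z p w1 ∧ Good c3 f0 h z q w2 ∧ w1 + w2 ≤ 3 * n + K0 := by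
  obtain ⟨p, q, hp, hq, hpq⟩ := others (c3 f0)
  obtain ⟨w1, hw1⟩ := base c3 f0 p
  obtain ⟨w2, hw2⟩ := base c3 f0 q
  refine ⟨w1 + w2, fun n => ?_⟩
  induction n with
  | zero =>
    refine ⟨_, _, p, q, w1, w2, hp, hq, hpq, round hB [] _, ?_, hw1, hw2, by simp⟩
    simpa using (onlineD_offlineD hB _).nonneg
  | succ n ih =>
    obtain ⟨h, z, p, q, w1, w2, hp, hq, hpq, ⟨i, j, hij, hi, hj⟩, hc, g1, g2, hw⟩ := ih
    obtain ⟨u, hu⟩ := third i j
    obtain ⟨z', hz1, hz2⟩ := avoid z (B h u)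
    have hno : ∀ l, B h l ≠ z' := by
      intro l hl
      by_cases h1 : l = i
      · rw [h1, hi] at hl; exact hz1 hl.symm
      · by_cases h2 : l = j
        · rw [h2, hj] at hl; exact hz1 hl.symm
        · rw [hu l h1 h2 hij] at hl; exact hz2 hl.symm
    obtain ⟨i', j', hij', hi', hj'⟩ := round hB h z'
    have hcost : 2 * ((n + 1 : ℕ) : ℝ) ≤ cost B (z' :: z' :: h) := by
      have e1 : cost B (z' :: z' :: h) = cost B h + ∑ l, dist (B h l) (B (z' :: h) l) +
        ∑ l, dist (B (z' :: h) l) (B (z' :: z' :: h) l) := rfl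
      have e2 : ∑ l, dist (B h l) (B (z' :: z' :: h) l) ≤ ∑ l, dist (B h l) (B (z' :: h) l) +
          ∑ l, dist (B (z' :: h) l) (B (z' :: z' :: h) l) := by
        rw [← sum_add_distrib]
        exact sum_le_sum fun _ _ => dist_triangle _ _ _
      have e3 : (2:ℝ) ≤ ∑ l, dist (B h l) (B (z' :: z' :: h) l) := by
        have e4 : ∑ l ∈ ({i', j'} : Finset (Fin 3)), dist (B h l) (B (z' :: z' :: h) l) = 2 := by
          rw [sum_pair hij', hi', hj', dist_tri, dist_tri, if_neg (hno _), if_neg (hno _)]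
          norm_num
        rw [← e4]
        exact sum_le_sum_of_subset_of_nonneg (subset_univ _) (fun _ _ _ => dist_nonneg)
      rw [e1]
      push_cast
      linarith
    rcases exh z p q z' hp hq hpq with h1 | h1 | h1
    · exact absurd h1 hz1
    · subst h1
      refine ⟨_, z', z, q, w1 + 1, w2 + 2, hp.symm, hpq, hq, ⟨i', j', hij', hi', hj'⟩, hcost,
        T1 hp g1, T2 hp g2, ?_⟩
      push_cast; linarith
    · subst h1
      refine ⟨_, z', z, p, w2 + 1, w1 + 2, hq.symm, hpq.symm, hp, ⟨i', j', hij', hi', hj'⟩, hcost,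
        T1 hq g2, T2 hq g1, ?_⟩
      push_cast; linarith

lemma compD_tri (c3 : Fin 3 → Tri) (f0 : Fin 3) : ENNReal.ofReal (4/3) ≤ compD true c3 f0 := by
  refine le_iInf₂ fun C hC => ?_
  obtain ⟨B, F, hB, K, hK⟩ := hC
  obtain ⟨K0, hadv⟩ := adv hB
  have key : (4:ℝ)/3 ≤ C := by
    by_contra hlt
    push Not at hlt
    have hopt : ∀ h z p w, Good c3 f0 h z p w → optD true c3 f0 h ≤ w := by
      rintro h z p w ⟨c, f, s, t, -, -, -, -, -, -, H⟩
      exact csInf_le ⟨0, by rintro x ⟨c, f, hc⟩; exact hc.nonneg⟩ ⟨c, f, H⟩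
    obtain ⟨n, hn⟩ := exists_nat_gt ((C * K0 / 2 + K) / (2 - 3/2 * C))
    rw [div_lt_iff₀ (by linarith)] at hn
    obtain ⟨h, z, p, q, w1, w2, -, -, -, -, hc, g1, g2, hw⟩ := hadv n
    have o1 := hopt _ _ _ _ g1
    have o2 := hopt _ _ _ _ g2
    have o3 : optD true c3 f0 h ≤ (3 * n + K0) / 2 := by linarith
    have o4 := mul_le_mul_of_nonneg_left o3 C.coe_nonneg
    have o5 := hK h
    nlinarith
  rw [← ENNReal.ofReal_coe_nnreal]
  exact ENNReal.ofReal_le_ofReal key

end Pool.Agent.X222.KS
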