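import Mathlib
import Pool.Agent.X222.KS.Main

namespace Pool.Agent.X222.KS
open Finset

variable {M : Type*} [MetricSpace M] {k : ℕ}

/-- embedding of `M` in `M × ℝ` (maximum metric) -/
def emb (x : M) : M × ℝ := (x, 0)

lemma dist_emb (x y : M) : dist (emb x) (emb y) = dist x y := by
  simp [emb, Prod.dist_eq]

lemma offline_emb {ver : Bool} {c0 : Fin k → M} {f0 : Fin k} {h : List M} {c : Fin k → M}
    {f : Fin k} {z : ℝ} (H : OfflineD ver c0 f0 h c f z) :
    OfflineD ver (fun i => emb (c0 i)) f0 (h.map emb) (fun i => emb (c i)) f z := by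
  induction H with
  | nil => exact OfflineD.nil
  | cons h c f z r c' f' _ hr hf hv ih =>
    have h1 := OfflineD.cons (h.map emb) (fun i => emb (c i)) f z (emb r) (fun i => emb (c' i)) f' ih
      (by simp only [hr]) (by simp only [hf]) hv
    simp only [dist_emb] at h1
    exact h1

lemma compD_emb (ver : Bool) (c0 : Fin k → M) (f0 : Fin k) :
    compD ver c0 f0 ≤ compD ver (fun i => emb (c0 i)) f0 := by
  refine le_iInf₂ fun C hC => iInf₂_le C ?_
  obtain ⟨B, F, hB, K, hK⟩ := hC
  have hBD : OnlineD ver c0 f0 (fun h i => (B (h.map emb) i).1) (fun h => F (h.map emb)) := by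
    refine ⟨?_, ?_, fun h r => ⟨?_, ?_, ?_⟩⟩
    · funext i
      simp only [List.map_nil]
      rw [hB.1]; rfl
    · simp only [List.map_nil]; exact hB.2.1
    · simp only [List.map_cons]
      rw [(hB.2.2 (h.map emb) (emb r)).1]; rfl
    · simp only [List.map_cons]
      rw [(hB.2.2 (h.map emb) (emb r)).2.1]
    · simp only [List.map_cons]
      exact (hB.2.2 (h.map emb) (emb r)).2.2
  refine ⟨_, _, hBD, K, fun h => ?_⟩
  have hcost : ∀ h : List M, cost (fun h i => (B (h.map emb) i).1) h ≤ cost B (h.map emb) := by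
    intro h
    induction h with
    | nil => exact le_rfl
    | cons r h ih =>
      change cost (fun h i => (B (h.map emb) i).1) h +
        ∑ i, dist (B (h.map emb) i).1 (B (emb r :: h.map emb) i).1 ≤
        cost B (h.map emb) + ∑ i, dist (B (h.map emb) i) (B (emb r :: h.map emb) i)
      refine add_le_add ih (sum_le_sum fun i _ => ?_)
      rw [Prod.dist_eq]; exact le_max_left _ _
  have hne : {z | ∃ c f, OfflineD ver c0 f0 h c f z}.Nonempty :=
    ⟨_, _, _, onlineD_offlineD hBD h⟩
  refine inf_bound hne ?_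
  rintro z ⟨c, f, H⟩
  have h1 : optD ver (fun i => emb (c0 i)) f0 (h.map emb) ≤ z :=
    csInf_le ⟨0, by rintro x ⟨c, f, hc⟩; exact hc.nonneg⟩ ⟨_, _, offline_emb H⟩
  have h2 := mul_le_mul_of_nonneg_left h1 C.coe_nonneg
  have h3 := hK (h.map emb)
  have h4 := hcost h
  linarith

theorem compD_prod (hk : 2 ≤ k) (c0 : Fin k → M) (f0 : Fin k) :
    compD true c0 f0 ≤ comp (fun i => emb (c0 i)) := by
  refine (compD_emb true c0 f0).trans (comp_le true hk _ f0 fun _ x ε hε => ?_)
  refine ⟨(x.1, x.2 + ε), ?_, ?_⟩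
  · intro h
    have := congrArg Prod.snd h
    simp only at this
    linarith
  · rw [Prod.dist_eq]
    simp [abs_of_pos hε, hε.le]

end Pool.Agent.X222.KS
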