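import Pool.Agent.X185.KS.Work
import Pool.Agent.X222.KS.Emb

namespace Pool.Agent.X222.KS
open Finset
open Pool.Agent.X185.KS (WS run wstep wcost w0 idx upd)

variable {M : Type*} [MetricSpace M] {k : ℕ}

theorem comp_wfa (hk : 2 ≤ k) (c0 : Fin k → M) : comp c0 ≤ ENNReal.ofReal (2 * k - 1) := by
  have : NeZero k := ⟨by omega⟩
  have : Nonempty M := ⟨c0 0⟩
  have hk1 : (1 : ℝ) ≤ k := by exact_mod_cast (by omega : 1 ≤ k)
  have hC : (((2 * (k:ℝ) - 1).toNNReal : NNReal) : ℝ) = 2 * k - 1 :=
    Real.coe_toNNReal _ (by linarith)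
  let st : WS M k := (w0 c0, c0)
  have hgood : Pool.Agent.X185.KS.Good st.1 := Pool.Agent.X185.KS.w0_good c0
  let A : List M → Fin k → M := fun h => (run st h.reverse).2
  have hrun : ∀ (h : List M) (r : M), run st (r :: h).reverse = wstep (run st h.reverse) r := by
    intro h r
    rw [List.reverse_cons, Pool.Agent.X185.KS.run_append]; rfl
  have hA : ∀ h r, A (r :: h) = Function.update (A h) (idx (run st h.reverse) r) r := by
    intro h r
    change (run st (r :: h).reverse).2 = _
    rw [hrun]; rfl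
  have hon : Online c0 A := ⟨rfl, fun h r => ⟨_, by rw [hA, Function.update_self]⟩⟩
  have hcost : ∀ h, cost A h = wcost st h.reverse := by
    intro h
    induction h with
    | nil => rfl
    | cons r h ih =>
      have e1 : cost A (r :: h) = cost A h + ∑ i, dist (A h i) (A (r :: h) i) := rfl
      rw [e1, ih, List.reverse_cons, Pool.Agent.X185.KS.wcost_append, hA, sum_update]
      have e2 : wcost (run st h.reverse) [r] =
        dist ((run st h.reverse).2 (idx (run st h.reverse) r)) r + 0 := rfl
      rw [e2, add_zero]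
  have hoff : ∀ h c z, Offline c0 h c z → (run st h.reverse).1 c ≤ z := by
    intro h c z H
    induction H with
    | nil => exact (Pool.Agent.X185.KS.w0_self c0).le
    | cons h c z r c' _ hr ih =>
      rw [hrun]
      obtain ⟨i, hi⟩ := hr
      have h1 : (wstep (run st h.reverse) r).1 c' ≤ (run st h.reverse).1 c' :=
        Pool.Agent.X185.KS.upd_of_mem _ hi
      have h2 := (Pool.Agent.X185.KS.run_good hgood h.reverse).lip c' c
      rw [Pool.Agent.X185.KS.D_comm] at h2
      have h3 : Pool.Agent.X185.KS.D c c' = ∑ i, dist (c i) (c' i) := rfl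
      rw [h3] at h2
      linarith
  refine (iInf₂_le (2 * (k:ℝ) - 1).toNNReal ?_)
  refine ⟨A, hon, ∑ i, ∑ j, dist (c0 i) (c0 j), fun h => ?_⟩
  have hne : {z | ∃ c, Offline c0 h c z}.Nonempty := ⟨_, _, online_offline hon h⟩
  refine inf_bound hne ?_
  rintro z ⟨c, H⟩
  have h1 := Pool.Agent.X185.KS.wcost_le hgood (Pool.Agent.X185.KS.w0_psi c0) h.reverse c
  have h2 : st.1 st.2 = 0 := Pool.Agent.X185.KS.w0_self c0
  have h3 := hoff h c z H
  have h4 := mul_le_mul_of_nonneg_left h3 (by linarith : (0:ℝ) ≤ 2 * k - 1)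
  rw [hcost, hC]
  linarith

theorem compD_le (hk : 2 ≤ k) (ver : Bool) (c0 : Fin k → M) (f0 : Fin k) :
    compD ver c0 f0 ≤ ENNReal.ofReal (2 * k - 1) := by
  cases ver with
  | false => exact (comp_le false hk c0 f0 (fun h => by simp at h)).trans (comp_wfa hk c0)
  | true => exact (compD_prod hk c0 f0).trans (comp_wfa hk _)

end Pool.Agent.X222.KS
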